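import Pool.Agent.Helper3.MT.ZLOG
import Pool.Agent.Helper40.MT.Stmts

/-!
# MT: `ST_ZAR`, the Lie algebra of a Zariski closure in the form of the blueprint
-/

set_option autoImplicit false
set_option maxHeartbeats 800000

open MvPolynomial

namespace MT

section

variable {K₀ : Type} [Field K₀] {n : ℕ}

theorem der_sum {ι : Type} (T : Finset ι)
    (D : ι → Derivation K₀ (MvPolynomial (Fin n × Fin n) K₀) (MvPolynomial (Fin n × Fin n) K₀))
    (f : MvPolynomial (Fin n × Fin n) K₀) : (∑ i ∈ T, D i) f = ∑ i ∈ T, D i f := by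
  classical
  induction T using Finset.induction_on with
  | empty => rw [Finset.sum_empty, Finset.sum_empty, Derivation.zero_apply]
  | insert a T ha ih => rw [Finset.sum_insert ha, Finset.sum_insert ha, Derivation.add_apply, ih]

theorem ldv_pderiv (M : Matrix (Fin n) (Fin n) K₀) (f : MvPolynomial (Fin n × Fin n) K₀) :
    ldv M f = ∑ ij : Fin n × Fin n, pderiv ij f * ldv M (X ij) := by
  have h : ldv M = ∑ ij : Fin n × Fin n, (ldv M (X ij)) • (pderiv ij : Derivation K₀ _ _) := by
    apply MvPolynomial.derivation_ext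
    intro ij
    rw [der_sum, Finset.sum_eq_single ij]
    · rw [Derivation.smul_apply, pderiv_X_self, smul_eq_mul, mul_one]
    · intro b _ hb
      rw [Derivation.smul_apply, pderiv_X_of_ne hb.symm, smul_zero]
    · intro h
      exact absurd (Finset.mem_univ _) h
  conv_lhs => rw [h]
  rw [der_sum]
  apply Finset.sum_congr rfl
  intro ij _
  rw [Derivation.smul_apply, smul_eq_mul, mul_comm]

theorem ev_one_ldv (M : Matrix (Fin n) (Fin n) K₀) (f : MvPolynomial (Fin n × Fin n) K₀) :
    ev (1 : Matrix (Fin n) (Fin n) K₀) (ldv M f) =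
      ∑ i, ∑ j, M i j * ev (1 : Matrix (Fin n) (Fin n) K₀) (pderiv (i, j) f) := by
  rw [ldv_pderiv, map_sum, Fintype.sum_prod_type]
  apply Finset.sum_congr rfl
  intro i _
  apply Finset.sum_congr rfl
  intro j _
  rw [map_mul, ev_ldv_X, one_mul, map_id_alg, mul_comm]

theorem lieZ_eq (X : Subgroup (Matrix.GeneralLinearGroup (Fin n) K₀)) : LieZ X = zLie X := by
  ext M
  constructor
  · intro h f hf
    rw [ev_one_ldv]
    exact h f hf
  · intro h f hf
    have := h f hf
    rw [ev_one_ldv] at this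
    exact this

/-! ### The points of the closure over a field form a group -/

theorem ev_eq_sum {K : Type} [Field K] (F : MvPolynomial (Fin n × Fin n) K)
    (y : Matrix (Fin n) (Fin n) K) :
    ev (K₀ := K) y F = ∑ m ∈ F.support, F.coeff m * ∏ ij, y ij.1 ij.2 ^ m ij := by
  unfold ev
  rw [aeval_def, eval₂_eq']
  rfl

/-- polynomials over an extension field which vanish on `X` vanish on the closure -/
theorem zc_ext {K : Type} [Field K] [Algebra K₀ K]
    (X : Set (Matrix.GeneralLinearGroup (Fin n) K₀)) (F : MvPolynomial (Fin n × Fin n) K)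
    (hF : ∀ x ∈ X, ev (K₀ := K) ((x : Matrix (Fin n) (Fin n) K₀).map (algebraMap K₀ K)) F = 0)
    (g : Matrix.GeneralLinearGroup (Fin n) K) (hg : g ∈ ZC X K) :
    ev (K₀ := K) (g : Matrix (Fin n) (Fin n) K) F = 0 := by
  classical
  let b := Module.Basis.ofVectorSpace K₀ K
  let fs : Module.Basis.ofVectorSpaceIndex K₀ K → MvPolynomial (Fin n × Fin n) K₀ := fun s =>
    ∑ m ∈ F.support, monomial m (b.repr (F.coeff m) s)
  have hfs : ∀ (R : Type) [CommRing R] [Algebra K₀ R] (y : Matrix (Fin n) (Fin n) R) (s),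
      ev y (fs s) = ∑ m ∈ F.support, algebraMap K₀ R (b.repr (F.coeff m) s) *
        ∏ ij, y ij.1 ij.2 ^ m ij := by
    intro R _ _ y s
    show ev y (∑ m ∈ F.support, monomial m (b.repr (F.coeff m) s)) = _
    rw [map_sum]
    apply Finset.sum_congr rfl
    intro m _
    unfold ev
    rw [aeval_monomial, Finsupp.prod_fintype]
    intro ij
    rw [pow_zero]
  have h1 : ∀ s, ∀ x ∈ X, ev (x : Matrix (Fin n) (Fin n) K₀) (fs s) = 0 := by
    intro s x hx
    rw [hfs]
    have h2 := hF x hx
    rw [ev_eq_sum] at h2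
    have h3 := congrArg (fun z => b.repr z s) h2
    simp only [map_zero, Finsupp.coe_zero, Pi.zero_apply] at h3
    rw [map_sum, Finsupp.finsetSum_apply] at h3
    rw [← h3]
    apply Finset.sum_congr rfl
    intro m _
    have h4 : ∏ ij : Fin n × Fin n, (x : Matrix (Fin n) (Fin n) K₀).map (algebraMap K₀ K)
        ij.1 ij.2 ^ m ij = algebraMap K₀ K (∏ ij : Fin n × Fin n,
          (x : Matrix (Fin n) (Fin n) K₀) ij.1 ij.2 ^ m ij) := by
      rw [map_prod]
      apply Finset.prod_congr rfl
      intro ij _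
      rw [map_pow]
      rfl
    have h5 : ∀ t : K₀, b.repr (F.coeff m * algebraMap K₀ K t) s = b.repr (F.coeff m) s * t := by
      intro t
      rw [mul_comm, ← Algebra.smul_def, map_smul, Finsupp.smul_apply, smul_eq_mul, mul_comm]
    rw [h4, h5]
    rfl
  have h5 : ∀ s, ∑ m ∈ F.support, algebraMap K₀ K (b.repr (F.coeff m) s) *
      ∏ ij : Fin n × Fin n, (g : Matrix (Fin n) (Fin n) K) ij.1 ij.2 ^ m ij = 0 := by
    intro s
    rw [← hfs K]
    exact hg (fs s) (h1 s)
  rw [ev_eq_sum]
  let S : Finset (Module.Basis.ofVectorSpaceIndex K₀ K) :=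
    F.support.biUnion fun m => (b.repr (F.coeff m)).support
  have h6 : ∀ m ∈ F.support, F.coeff m = ∑ s ∈ S, algebraMap K₀ K (b.repr (F.coeff m) s) * b s := by
    intro m hm
    conv_lhs => rw [← b.linearCombination_repr (F.coeff m)]
    rw [Finsupp.linearCombination_apply, Finsupp.sum]
    have h7 : (b.repr (F.coeff m)).support ⊆ S := by
      intro s hs
      exact Finset.mem_biUnion.mpr ⟨m, hm, hs⟩
    rw [← Finset.sum_subset h7]
    · apply Finset.sum_congr rfl
      intro s _
      rw [Algebra.smul_def]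
    · intro s _ hs
      rw [Finsupp.notMem_support_iff] at hs
      rw [hs, map_zero, zero_mul]
  calc ∑ m ∈ F.support, F.coeff m * ∏ ij : Fin n × Fin n, (g : Matrix (Fin n) (Fin n) K) ij.1 ij.2 ^ m ij
      = ∑ m ∈ F.support, ∑ s ∈ S, b s * (algebraMap K₀ K (b.repr (F.coeff m) s) *
        ∏ ij : Fin n × Fin n, (g : Matrix (Fin n) (Fin n) K) ij.1 ij.2 ^ m ij) := by
        apply Finset.sum_congr rfl
        intro m hm
        conv_lhs => rw [h6 m hm]
        rw [Finset.sum_mul]
        apply Finset.sum_congr rfl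
        intro s _
        ring
    _ = ∑ s ∈ S, b s * ∑ m ∈ F.support, (algebraMap K₀ K (b.repr (F.coeff m) s) *
        ∏ ij : Fin n × Fin n, (g : Matrix (Fin n) (Fin n) K) ij.1 ij.2 ^ m ij) := by
        rw [Finset.sum_comm]
        apply Finset.sum_congr rfl
        intro s _
        rw [Finset.mul_sum]
    _ = 0 := by
        apply Finset.sum_eq_zero
        intro s _
        rw [h5 s, mul_zero]

theorem ev_shift {K : Type} [Field K] [Algebra K₀ K] (y g' : Matrix (Fin n) (Fin n) K)
    (f : MvPolynomial (Fin n × Fin n) K₀) :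
    ev (K₀ := K) y (ev (K₀ := K₀) (gm (K₀ := K) *
      g'.map (algebraMap K (MvPolynomial (Fin n × Fin n) K))) f) = ev (K₀ := K₀) (y * g') f := by
  let φ : MvPolynomial (Fin n × Fin n) K →ₐ[K₀] K := (ev (K₀ := K) y).restrictScalars K₀
  have h1 := ev_mapA φ (gm (K₀ := K) * g'.map (algebraMap K (MvPolynomial (Fin n × Fin n) K))) f
  have h2 : (gm (K₀ := K) * g'.map (algebraMap K (MvPolynomial (Fin n × Fin n) K))).map φ =
      y * g' := by
    have h3 : (gm (K₀ := K) * g'.map (algebraMap K (MvPolynomial (Fin n × Fin n) K))).map φ =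
        (gm (K₀ := K)).map (ev (K₀ := K) y) *
          (g'.map (algebraMap K (MvPolynomial (Fin n × Fin n) K))).map (ev (K₀ := K) y) :=
      Matrix.map_mul (f := (ev (K₀ := K) y).toRingHom)
    rw [h3, gm_map, cmap_map]
    congr 1
  rw [h2] at h1
  exact h1

/-- the points of the closure are closed under products. -/
theorem zc_mul {K : Type} [Field K] [Algebra K₀ K]
    (X : Subgroup (Matrix.GeneralLinearGroup (Fin n) K₀))
    (g g' : Matrix.GeneralLinearGroup (Fin n) K)
    (hg : g ∈ ZC (X : Set (Matrix.GeneralLinearGroup (Fin n) K₀)) K)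
    (hg' : g' ∈ ZC (X : Set (Matrix.GeneralLinearGroup (Fin n) K₀)) K) :
    g * g' ∈ ZC (X : Set (Matrix.GeneralLinearGroup (Fin n) K₀)) K := by
  intro f hf
  rw [Units.val_mul, ← ev_shift]
  apply zc_ext (X : Set (Matrix.GeneralLinearGroup (Fin n) K₀)) _ _ g hg
  intro x hx
  rw [ev_shift, ← ev_lt]
  exact hg' _ (lt_mem X x hx f hf)

/-- product rule for matrices -/
theorem der_mulm {R : Type} [CommRing R] [Algebra K₀ R] (D : Derivation K₀ R R)
    (Y Z : Matrix (Fin n) (Fin n) R) : (Y * Z).map D = Y.map D * Z + Y * Z.map D := by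
  ext i j
  rw [Matrix.map_apply, Matrix.add_apply, Matrix.mul_apply, Matrix.mul_apply, Matrix.mul_apply,
    map_sum, ← Finset.sum_add_distrib]
  apply Finset.sum_congr rfl
  intro k _
  rw [Derivation.leibniz, Matrix.map_apply, Matrix.map_apply, smul_eq_mul, smul_eq_mul]
  ring

/-- the Lie algebra of a group of similitudes consists of infinitesimal similitudes. -/
theorem zLie_sim (X : Subgroup (Matrix.GeneralLinearGroup (Fin n) K₀))
    (ψ : Matrix (Fin n) (Fin n) K₀) (hψ : ψ.det ≠ 0)
    (hX : ∀ x ∈ X, ∃ c : K₀, (x : Matrix (Fin n) (Fin n) K₀).transpose * ψ *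
      (x : Matrix (Fin n) (Fin n) K₀) = c • ψ)
    (A : Matrix (Fin n) (Fin n) K₀) (hA : A ∈ zLie X) :
    ∃ c : K₀, A.transpose * ψ + ψ * A = c • ψ := by
  by_cases hz : ∀ k l, ψ k l = 0
  · refine ⟨0, ?_⟩
    have h1 : ψ = 0 := by
      ext k l
      exact hz k l
    rw [h1, mul_zero, zero_mul, smul_zero, add_zero]
  · push Not at hz
    obtain ⟨k, l, hkl⟩ := hz
    set R := MvPolynomial (Fin n × Fin n) K₀ with hR
    set Ψ : Matrix (Fin n) (Fin n) R := ψ.map (algebraMap K₀ R) with hΨ
    set B : Matrix (Fin n) (Fin n) R := (gm (K₀ := K₀)).transpose * (Ψ * gm) with hB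
    have hBev : ∀ (y : Matrix (Fin n) (Fin n) K₀), B.map (ev y) = y.transpose * (ψ * y) := by
      intro y
      have h1 : ∀ U V : Matrix (Fin n) (Fin n) R,
          (U * V).map (ev (K₀ := K₀) y) = U.map (ev (K₀ := K₀) y) * V.map (ev (K₀ := K₀) y) :=
        fun U V => Matrix.map_mul (f := (ev (K₀ := K₀) y).toRingHom)
      rw [hB, h1, h1, hΨ, cmap_map, gm_map, map_id_alg, Matrix.transpose_map, gm_map]
    have hBder : (B.map (ldv A)).map (ev (1 : Matrix (Fin n) (Fin n) K₀)) =
        A.transpose * ψ + ψ * A := by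
      have h1 : ∀ U V : Matrix (Fin n) (Fin n) R,
          (U * V).map (ev (K₀ := K₀) (1 : Matrix (Fin n) (Fin n) K₀)) =
            U.map (ev (K₀ := K₀) 1) * V.map (ev (K₀ := K₀) 1) :=
        fun U V => Matrix.map_mul (f := (ev (K₀ := K₀) (1 : Matrix (Fin n) (Fin n) K₀)).toRingHom)
      have h2 : ∀ U V : Matrix (Fin n) (Fin n) R,
          (U + V).map (ev (K₀ := K₀) (1 : Matrix (Fin n) (Fin n) K₀)) =
            U.map (ev (K₀ := K₀) 1) + V.map (ev (K₀ := K₀) 1) :=
        fun U V => Matrix.map_add _ (map_add _) U V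
      have h3 : (Ψ * gm).map (ldv A) = Ψ * (gm * A.map (algebraMap K₀ R)) := by
        ext1 i j
        rw [Matrix.map_apply, hΨ, der_left, gm_der]
      rw [hB, der_mulm, h3, Matrix.transpose_map, gm_der, h2, h1, h1, h1, h1, h1,
        Matrix.transpose_map, Matrix.transpose_map, h1, hΨ, cmap_map, cmap_map, gm_map, map_id_alg,
        map_id_alg]
      simp only [Matrix.transpose_one, Matrix.one_mul, Matrix.mul_one]
    have key : ∀ i j, (A.transpose * ψ + ψ * A) i j * ψ k l = (A.transpose * ψ + ψ * A) k l *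
        ψ i j := by
      intro i j
      have h1 : B i j * C (ψ k l) - B k l * C (ψ i j) ∈ zI X := by
        intro x hx
        obtain ⟨c, hc⟩ := hX x hx
        have h2 : ∀ a b, ev (x : Matrix (Fin n) (Fin n) K₀) (B a b) = c * ψ a b := by
          intro a b
          have h3 := congrFun (congrFun (hBev (x : Matrix (Fin n) (Fin n) K₀)) a) b
          rw [← Matrix.mul_assoc, hc] at h3
          exact h3
        rw [map_sub, map_mul, map_mul, h2, h2, ev_C, ev_C]
        show c * ψ i j * ψ k l - c * ψ k l * ψ i j = 0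
        ring
      have h4 := hA _ h1
      have h5 : ∀ a b, ev (1 : Matrix (Fin n) (Fin n) K₀) (ldv A (B a b)) =
          (A.transpose * ψ + ψ * A) a b := by
        intro a b
        exact congrFun (congrFun hBder a) b
      have h6 : ∀ (a b) (t : K₀), ev (1 : Matrix (Fin n) (Fin n) K₀) (ldv A (B a b * C t)) =
          (A.transpose * ψ + ψ * A) a b * t := by
        intro a b t
        have h7 : ldv A (C t) = 0 := (ldv A).map_algebraMap t
        rw [Derivation.leibniz, h7, smul_zero, zero_add, smul_eq_mul, map_mul, h5, ev_C, mul_comm]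
        rfl
      rw [map_sub, map_sub, h6, h6] at h4
      exact sub_eq_zero.mp h4
    refine ⟨(A.transpose * ψ + ψ * A) k l / ψ k l, ?_⟩
    ext i j
    rw [Matrix.smul_apply, smul_eq_mul, div_mul_eq_mul_div, eq_div_iff hkl]
    exact key i j

end

theorem st_ZAR : ST_ZAR := by
  intro K₀ _ n X
  refine ⟨?_, ?_, ?_, ?_, ?_⟩
  · intro A hA B hB
    rw [lieZ_eq] at *
    exact zLie_comm X A B hA hB
  · intro y hy A hA
    rw [lieZ_eq] at *
    exact zLie_conj X y hy A hA
  · intro A hA f hf x hx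
    rw [lieZ_eq] at hA
    exact zLie_stable X A hA f hf x hx
  · intro ψ hψ hX A hA
    rw [lieZ_eq] at hA
    exact zLie_sim X ψ hψ hX A hA
  · intro K _ _ g hg g' hg'
    exact zc_mul X g g' hg hg'

end MT
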