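import Pool.Agent.Helper3.MT.ZARS

/-!
# MT: `ST_LOG`, the logarithm of a unipotent matrix
-/

set_option autoImplicit false
set_option maxHeartbeats 800000

open MvPolynomial

namespace MT

section

variable {K₀ : Type} [Field K₀] {n : ℕ}

/-- the logarithm is `T u` with `T = t - 1`. -/
theorem lg_eq (t : Matrix (Fin n) (Fin n) K₀) : ∃ u : Matrix (Fin n) (Fin n) K₀,
    lg t = (t - 1) * u ∧ Commute (t - 1) u ∧
      ((t - 1) ^ n = 0 → (t - 1) ^ (n - 1) * u = (t - 1) ^ (n - 1) ∨ n ≤ 1) := by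
  set T := t - 1 with hT
  cases n with
  | zero =>
    exact ⟨0, Subsingleton.elim _ _, Commute.zero_right _, fun _ => Or.inr (Nat.zero_le _)⟩
  | succ m =>
    refine ⟨∑ k ∈ Finset.range m, ((-1) ^ (k + 1 + 1) / ((k + 1 : ℕ) : K₀)) • T ^ k, ?_, ?_, ?_⟩
    · unfold lg
      rw [Finset.sum_range_succ', Finset.mul_sum]
      rw [Nat.cast_zero, div_zero, zero_smul, add_zero]
      apply Finset.sum_congr rfl
      intro k _
      rw [Matrix.mul_smul, ← pow_succ', hT]
    · apply Commute.sum_right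
      intro k _
      exact (Commute.pow_right (Commute.refl T) k).smul_right _
    · intro hn
      cases m with
      | zero => exact Or.inr (le_refl _)
      | succ m =>
        left
        rw [Finset.mul_sum, Finset.sum_range_succ']
        have h1 : ∀ k ∈ Finset.range m, T ^ (m + 1 + 1 - 1) *
            (((-1) ^ (k + 1 + 1 + 1) / ((k + 1 + 1 : ℕ) : K₀)) • T ^ (k + 1)) = 0 := by
          intro k _
          rw [Matrix.mul_smul, ← pow_add]
          have h2 : m + 1 + 1 - 1 + (k + 1) = m + 1 + 1 + k := by omega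
          rw [h2, pow_add T (m + 1 + 1) k, hn, zero_mul, smul_zero]
        rw [Finset.sum_eq_zero h1, zero_add, pow_zero, Matrix.mul_smul, mul_one]
        norm_num

theorem lg_nil (t : Matrix (Fin n) (Fin n) K₀) (ht : (t - 1) ^ n = 0) : lg t ^ n = 0 := by
  obtain ⟨u, hu, hc, -⟩ := lg_eq t
  rw [hu, hc.mul_pow, ht, zero_mul]

theorem lg_pred (t : Matrix (Fin n) (Fin n) K₀) (ht : (t - 1) ^ n = 0) :
    lg t ^ (n - 1) = (t - 1) ^ (n - 1) := by
  obtain ⟨u, hu, hc, h3⟩ := lg_eq t
  rcases h3 ht with h4 | h4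
  · rw [hu, hc.mul_pow]
    have h5 : ∀ j, (t - 1) ^ (n - 1) * u ^ j = (t - 1) ^ (n - 1) := by
      intro j
      induction j with
      | zero => rw [pow_zero, mul_one]
      | succ j ih => rw [pow_succ, ← mul_assoc, ih, h4]
    exact h5 _
  · have h5 : n - 1 = 0 := by omega
    rw [h5, pow_zero, pow_zero]

theorem lg_pow [CharZero K₀] (t : Matrix (Fin n) (Fin n) K₀) (ht : (t - 1) ^ n = 0) (q : ℕ) :
    lg (t ^ q) = (q : K₀) • lg t := by
  have hq : (t ^ q - 1) ^ n = 0 := by
    obtain ⟨s, hs⟩ : ∃ s, t ^ q - 1 = (t - 1) * s ∧ Commute (t - 1) s := by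
      refine ⟨∑ i ∈ Finset.range q, t ^ i, ?_, ?_⟩
      · exact (mul_geom_sum t q).symm
      · apply Commute.sum_right
        intro i _
        exact (Commute.pow_right (Commute.refl t) i).sub_left (Commute.one_left _)
    rw [hs.1, hs.2.mul_pow, ht, zero_mul]
  ext i j
  rw [Matrix.smul_apply, smul_eq_mul]
  have h1 : opg (t ^ q - 1) i j = (opg (t - 1) i j).comp (Polynomial.C (q : K₀) * Polynomial.X) := by
    apply Polynomial.eq_of_infinite_eval_eq
    apply Set.infinite_of_injective_forall_mem (f := fun m : ℕ => (m : K₀)) Nat.cast_injective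
    intro m
    show (opg (t ^ q - 1) i j).eval (m : K₀) =
      ((opg (t - 1) i j).comp (Polynomial.C (q : K₀) * Polynomial.X)).eval (m : K₀)
    have h6 := congrFun (congrFun (opg_eval (t ^ q - 1) hq m) i) j
    have h7 := congrFun (congrFun (opg_eval (t - 1) ht (q * m)) i) j
    rw [Matrix.map_apply, Polynomial.coe_aeval_eq_eval] at h6 h7
    rw [Polynomial.eval_comp, Polynomial.eval_mul, Polynomial.eval_C, Polynomial.eval_X,
      ← Nat.cast_mul, h6, h7, add_sub_cancel, add_sub_cancel, pow_mul]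
  have h2 := opg_der (t ^ q - 1) i j
  have h3 := opg_der (t - 1) i j
  have h4 : lg (t ^ q) i j = Polynomial.aeval (0 : K₀) (Polynomial.derivative (opg (t ^ q - 1) i j)) :=
    h2.symm
  have h5 : lg t i j = Polynomial.aeval (0 : K₀) (Polynomial.derivative (opg (t - 1) i j)) :=
    h3.symm
  rw [h4, h5, h1, Polynomial.derivative_comp, Polynomial.derivative_C_mul,
    Polynomial.derivative_X, mul_one, map_mul, Polynomial.aeval_C, Polynomial.coe_aeval_eq_eval,
    Polynomial.eval_comp, Polynomial.eval_mul, Polynomial.eval_X, mul_zero]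
  rfl

end

theorem st_LOG : ST_LOG := by
  intro K₀ _ _ n X t ht x q h1 h2 h3
  refine ⟨lg (t : Matrix (Fin n) (Fin n) K₀), ?_, ?_, ?_, ?_⟩
  · rw [lieZ_eq]
    exact lg_mem X t ht h1
  · exact lg_nil _ h1
  · rw [lg_pred _ h1]
    exact h2
  · have h4 : (x : Matrix (Fin n) (Fin n) K₀) * (t : Matrix (Fin n) (Fin n) K₀) =
        (t : Matrix (Fin n) (Fin n) K₀) ^ q * (x : Matrix (Fin n) (Fin n) K₀) := by
      have h5 : x * t = t ^ q * x := by
        rw [← h3, inv_mul_cancel_right]
      rw [← Units.val_mul, h5, Units.val_mul, Units.val_pow_eq_pow_val]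
    have h6 : (x : Matrix (Fin n) (Fin n) K₀) * lg (t : Matrix (Fin n) (Fin n) K₀) =
        lg ((t : Matrix (Fin n) (Fin n) K₀) ^ q) * (x : Matrix (Fin n) (Fin n) K₀) := by
      unfold lg
      rw [Finset.mul_sum, Finset.sum_mul]
      apply Finset.sum_congr rfl
      intro k _
      rw [Matrix.mul_smul, Matrix.smul_mul]
      congr 1
      have h7 : (x : Matrix (Fin n) (Fin n) K₀) * ((t : Matrix (Fin n) (Fin n) K₀) - 1) =
          ((t : Matrix (Fin n) (Fin n) K₀) ^ q - 1) * (x : Matrix (Fin n) (Fin n) K₀) := by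
        rw [mul_sub, sub_mul, h4, mul_one, one_mul]
      exact SemiconjBy.pow_right (a := (x : Matrix (Fin n) (Fin n) K₀)) h7 k
    rw [h6, lg_pow _ h1, Matrix.smul_mul]

end MT
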