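import Pool.Agent.Helper84.MT.Ode

/-!
# MT, module ZAR: the Lie algebra of the Zariski closure of a group of matrices
-/

set_option autoImplicit false
set_option maxHeartbeats 800000

open MvPolynomial

namespace MT

section

variable {K₀ : Type*} [Field K₀] {n : ℕ}

/-- algebra homomorphisms and evaluation -/
theorem ev_mapA {R S : Type*} [CommRing R] [Algebra K₀ R] [CommRing S] [Algebra K₀ S]
    (φ : R →ₐ[K₀] S) (Y : Matrix (Fin n) (Fin n) R) (f : MvPolynomial (Fin n × Fin n) K₀) :
    φ (ev Y f) = ev (Y.map φ) f := by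
  have h : φ.comp (ev Y) = ev (Y.map φ) := by
    apply MvPolynomial.algHom_ext
    intro ij
    rw [AlgHom.comp_apply, ev_X, ev_X, Matrix.map_apply]
  rw [← h, AlgHom.comp_apply]

/-- the generic matrix -/
noncomputable def gm : Matrix (Fin n) (Fin n) (MvPolynomial (Fin n × Fin n) K₀) :=
  Matrix.of fun i j => X (i, j)

theorem gm_map {S : Type*} [CommRing S] [Algebra K₀ S] (h : Matrix (Fin n) (Fin n) S) :
    (gm (K₀ := K₀)).map (ev (K₀ := K₀) h) = h := by
  ext i j
  rw [Matrix.map_apply]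
  show ev h (X (i, j)) = h i j
  rw [ev_X]

theorem ev_gm (f : MvPolynomial (Fin n × Fin n) K₀) : ev gm f = f := by
  have h : (ev (gm (K₀ := K₀) (n := n))) = AlgHom.id K₀ _ := by
    apply MvPolynomial.algHom_ext
    intro ij
    rw [ev_X]
    rfl
  rw [h, AlgHom.id_apply]

/-- scalar matrices in polynomial matrices -/
theorem cmap_map {S : Type*} [CommRing S] [Algebra K₀ S] (h : Matrix (Fin n) (Fin n) S)
    (g : Matrix (Fin n) (Fin n) K₀) :
    (g.map (algebraMap K₀ (MvPolynomial (Fin n × Fin n) K₀))).map (ev (K₀ := K₀) h) =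
      g.map (algebraMap K₀ S) := by
  ext i j
  rw [Matrix.map_apply, Matrix.map_apply, Matrix.map_apply, AlgHom.commutes]

/-- chain rule for derivations -/
theorem der_ev {R : Type*} [CommRing R] [Algebra K₀ R] (D : Derivation K₀ R R)
    (Y : Matrix (Fin n) (Fin n) R) (M : Matrix (Fin n) (Fin n) K₀)
    (h : ∀ i j, D (Y i j) = (Y * M.map (algebraMap K₀ R)) i j)
    (f : MvPolynomial (Fin n × Fin n) K₀) : D (ev Y f) = ev Y (ldv M f) := by
  induction f using MvPolynomial.induction_on with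
  | C a =>
    have h1 : ldv M (C a) = 0 := (ldv M).map_algebraMap a
    rw [h1, map_zero, ev_C]
    exact D.map_algebraMap a
  | add p q hp hq => rw [map_add, map_add, map_add, map_add, hp, hq]
  | mul_X p ij hp =>
    rw [map_mul, Derivation.leibniz, Derivation.leibniz, hp, ev_X, h, map_add, smul_eq_mul,
      smul_eq_mul, smul_eq_mul, smul_eq_mul, map_mul, map_mul, ev_ldv_X, ev_X]

/-- chain rule at a point -/
theorem der_ev_pt {R S : Type*} [CommRing R] [Algebra K₀ R] [CommRing S] [Algebra K₀ S]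
    (D : Derivation K₀ R R) (φ : R →ₐ[K₀] S)
    (Y : Matrix (Fin n) (Fin n) R) (g : Matrix (Fin n) (Fin n) S) (M : Matrix (Fin n) (Fin n) K₀)
    (hg : ∀ i j, φ (Y i j) = g i j)
    (h : ∀ i j, φ (D (Y i j)) = (g * M.map (algebraMap K₀ S)) i j)
    (f : MvPolynomial (Fin n × Fin n) K₀) : φ (D (ev Y f)) = ev g (ldv M f) := by
  have hY : Y.map φ = g := by
    ext i j
    rw [Matrix.map_apply, hg]
  induction f using MvPolynomial.induction_on with
  | C a =>
    have h1 : ldv M (C a) = 0 := (ldv M).map_algebraMap a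
    rw [h1, map_zero, ev_C, D.map_algebraMap a, map_zero]
  | add p q hp hq => rw [map_add, map_add, map_add, map_add, map_add, hp, hq]
  | mul_X p ij hp =>
    rw [map_mul, Derivation.leibniz, Derivation.leibniz, map_add, map_add, smul_eq_mul,
      smul_eq_mul, smul_eq_mul, smul_eq_mul, map_mul, map_mul, map_mul, map_mul, hp, ev_X, ev_X,
      h, ev_mapA, hY, ev_ldv_X, hg]

theorem ldv_add (M N : Matrix (Fin n) (Fin n) K₀) : ldv (M + N) = ldv M + ldv N := by
  apply MvPolynomial.derivation_ext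
  intro ij
  rw [Derivation.add_apply]
  unfold ldv
  rw [mkDerivation_X, mkDerivation_X, mkDerivation_X, ← Finset.sum_add_distrib]
  apply Finset.sum_congr rfl
  intro k _
  rw [Matrix.add_apply, map_add, mul_add]

theorem ldv_smul (a : K₀) (M : Matrix (Fin n) (Fin n) K₀) : ldv (a • M) = a • ldv M := by
  apply MvPolynomial.derivation_ext
  intro ij
  rw [Derivation.smul_apply]
  unfold ldv
  rw [mkDerivation_X, mkDerivation_X, Finset.smul_sum]
  apply Finset.sum_congr rfl
  intro k _
  rw [Matrix.smul_apply, smul_eq_mul, map_mul, MvPolynomial.smul_eq_C_mul]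
  ring

theorem ldv_zero : ldv (0 : Matrix (Fin n) (Fin n) K₀) = 0 := by
  have h := ldv_smul (0 : K₀) (0 : Matrix (Fin n) (Fin n) K₀)
  rw [zero_smul, zero_smul] at h
  exact h

/-- left invariant derivations: the commutator -/
theorem ldv_comm (M N : Matrix (Fin n) (Fin n) K₀) (f : MvPolynomial (Fin n × Fin n) K₀) :
    ldv M (ldv N f) - ldv N (ldv M f) = ldv (M * N - N * M) f := by
  have h : ⁅ldv M, ldv N⁆ = ldv (M * N - N * M) := by
    apply MvPolynomial.derivation_ext
    intro ij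
    rw [Derivation.commutator_apply]
    have h1 : ∀ A B : Matrix (Fin n) (Fin n) K₀, ldv A (ldv B (X ij)) =
        ∑ m, X (ij.1, m) * C ((A * B) m ij.2) := by
      intro A B
      have h2 : ldv B (X ij) = ∑ k, X (ij.1, k) * C (B k ij.2) := by
        unfold ldv
        rw [mkDerivation_X]
      rw [h2, map_sum]
      have h3 : ∀ k, ldv A (X (ij.1, k) * C (B k ij.2)) =
          ∑ m, X (ij.1, m) * C (A m k * B k ij.2) := by
        intro k
        have h4 : ldv A (X (ij.1, k)) = ∑ m, X (ij.1, m) * C (A m k) := by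
          unfold ldv
          rw [mkDerivation_X]
        have h5 : ldv A (C (B k ij.2)) = 0 := (ldv A).map_algebraMap _
        rw [Derivation.leibniz, h5, smul_zero, zero_add, h4, smul_eq_mul, Finset.mul_sum]
        apply Finset.sum_congr rfl
        intro m _
        rw [map_mul]
        ring
      rw [Finset.sum_congr rfl (fun k _ => h3 k), Finset.sum_comm]
      apply Finset.sum_congr rfl
      intro m _
      rw [Matrix.mul_apply, map_sum, Finset.mul_sum]
    have h6 : ldv (M * N - N * M) (X ij) = ∑ k, X (ij.1, k) * C ((M * N - N * M) k ij.2) := by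
      unfold ldv
      rw [mkDerivation_X]
    rw [h1, h1, h6, ← Finset.sum_sub_distrib]
    apply Finset.sum_congr rfl
    intro m _
    rw [Matrix.sub_apply, map_sub, mul_sub]
  rw [← h, Derivation.commutator_apply]

/-! ### The vanishing ideal and the Lie algebra -/

variable (G : Subgroup (Matrix.GeneralLinearGroup (Fin n) K₀))

/-- the polynomials which vanish on `G` -/
def zI : Set (MvPolynomial (Fin n × Fin n) K₀) :=
  {f | ∀ g ∈ G, ev (g : Matrix (Fin n) (Fin n) K₀) f = 0}

/-- the Lie algebra of the Zariski closure of `G` -/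
noncomputable def zLie : Submodule K₀ (Matrix (Fin n) (Fin n) K₀) where
  carrier := {M | ∀ f ∈ zI G, ev (1 : Matrix (Fin n) (Fin n) K₀) (ldv M f) = 0}
  add_mem' := by
    intro M N hM hN f hf
    rw [ldv_add, Derivation.add_apply, map_add, hM f hf, hN f hf, add_zero]
  zero_mem' := by
    intro f hf
    rw [ldv_zero, Derivation.zero_apply, map_zero]
  smul_mem' := by
    intro a M hM f hf
    rw [ldv_smul, Derivation.smul_apply, map_smul, hM f hf, smul_zero]

theorem mem_zLie (M : Matrix (Fin n) (Fin n) K₀) :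
    M ∈ zLie G ↔ ∀ f ∈ zI G, ev (1 : Matrix (Fin n) (Fin n) K₀) (ldv M f) = 0 := Iff.rfl

theorem zI_one (f : MvPolynomial (Fin n × Fin n) K₀) (hf : f ∈ zI G) :
    ev (1 : Matrix (Fin n) (Fin n) K₀) f = 0 := by
  have := hf 1 G.one_mem
  rw [Units.val_one] at this
  exact this

/-- left translation -/
noncomputable def lt (g : Matrix (Fin n) (Fin n) K₀) :
    MvPolynomial (Fin n × Fin n) K₀ →ₐ[K₀] MvPolynomial (Fin n × Fin n) K₀ :=
  ev (g.map (algebraMap K₀ (MvPolynomial (Fin n × Fin n) K₀)) * gm)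

theorem ev_lt {S : Type*} [CommRing S] [Algebra K₀ S] (g : Matrix (Fin n) (Fin n) K₀)
    (h : Matrix (Fin n) (Fin n) S) (f : MvPolynomial (Fin n × Fin n) K₀) :
    ev h (lt g f) = ev (g.map (algebraMap K₀ S) * h) f := by
  unfold lt
  rw [ev_mapA]
  congr 2
  have h1 : (g.map (algebraMap K₀ (MvPolynomial (Fin n × Fin n) K₀)) * gm).map
      (ev (K₀ := K₀) h) =
      (g.map (algebraMap K₀ (MvPolynomial (Fin n × Fin n) K₀))).map (ev (K₀ := K₀) h) *
        gm.map (ev (K₀ := K₀) h) :=
    Matrix.map_mul (f := (ev (K₀ := K₀) h).toRingHom)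
  rw [h1, cmap_map, gm_map]

theorem map_id_alg (g : Matrix (Fin n) (Fin n) K₀) : g.map (algebraMap K₀ K₀) = g := by
  ext i j
  rfl

theorem ldv_lt (g M : Matrix (Fin n) (Fin n) K₀) (f : MvPolynomial (Fin n × Fin n) K₀) :
    ldv M (lt g f) = lt g (ldv M f) := by
  unfold lt
  apply der_ev
  intro i j
  rw [Matrix.mul_assoc, Matrix.mul_apply, Matrix.mul_apply, map_sum]
  apply Finset.sum_congr rfl
  intro k _
  rw [Derivation.leibniz, Matrix.map_apply, (ldv M).map_algebraMap, smul_zero, add_zero,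
    smul_eq_mul]
  congr 1
  have h1 := ev_ldv_X (K₀ := K₀) (gm (K₀ := K₀) (n := n)) M (k, j)
  rw [ev_gm] at h1
  exact h1

theorem lt_mem (g : Matrix.GeneralLinearGroup (Fin n) K₀) (hg : g ∈ G)
    (f : MvPolynomial (Fin n × Fin n) K₀) (hf : f ∈ zI G) :
    lt (g : Matrix (Fin n) (Fin n) K₀) f ∈ zI G := by
  intro h hh
  rw [ev_lt, map_id_alg, ← Units.val_mul]
  exact hf _ (G.mul_mem hg hh)

/-- (d) the vanishing ideal is stable under the left invariant derivations of the Lie algebra. -/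
theorem zLie_stable (M : Matrix (Fin n) (Fin n) K₀) (hM : M ∈ zLie G)
    (f : MvPolynomial (Fin n × Fin n) K₀) (hf : f ∈ zI G) : ldv M f ∈ zI G := by
  intro g hg
  have h1 := hM _ (lt_mem G g hg f hf)
  rw [ldv_lt, ev_lt, map_id_alg, mul_one] at h1
  exact h1

/-- (b) the Lie algebra is closed under brackets. -/
theorem zLie_comm (M N : Matrix (Fin n) (Fin n) K₀) (hM : M ∈ zLie G) (hN : N ∈ zLie G) :
    M * N - N * M ∈ zLie G := by
  intro f hf
  rw [← ldv_comm, map_sub, hM _ (zLie_stable G N hN f hf), hN _ (zLie_stable G M hM f hf),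
    sub_zero]

theorem zI_mono (G' : Subgroup (Matrix.GeneralLinearGroup (Fin n) K₀)) (h : G ≤ G') :
    zI G' ⊆ zI G := fun _ hf g hg => hf g (h hg)

theorem zLie_mono (G' : Subgroup (Matrix.GeneralLinearGroup (Fin n) K₀)) (h : G ≤ G') :
    zLie G ≤ zLie G' := fun _ hM f hf => hM f (zI_mono G G' h hf)

/-- conjugation -/
noncomputable def cj (g : Matrix.GeneralLinearGroup (Fin n) K₀) :
    MvPolynomial (Fin n × Fin n) K₀ →ₐ[K₀] MvPolynomial (Fin n × Fin n) K₀ :=
  ev ((g : Matrix (Fin n) (Fin n) K₀).map (algebraMap K₀ (MvPolynomial (Fin n × Fin n) K₀)) *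
    (gm * ((g⁻¹ : Matrix.GeneralLinearGroup (Fin n) K₀) : Matrix (Fin n) (Fin n) K₀).map
      (algebraMap K₀ (MvPolynomial (Fin n × Fin n) K₀))))

theorem ev_cj {S : Type*} [CommRing S] [Algebra K₀ S] (g : Matrix.GeneralLinearGroup (Fin n) K₀)
    (h : Matrix (Fin n) (Fin n) S) (f : MvPolynomial (Fin n × Fin n) K₀) :
    ev h (cj g f) = ev ((g : Matrix (Fin n) (Fin n) K₀).map (algebraMap K₀ S) *
      (h * ((g⁻¹ : Matrix.GeneralLinearGroup (Fin n) K₀) : Matrix (Fin n) (Fin n) K₀).map
        (algebraMap K₀ S))) f := by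
  unfold cj
  rw [ev_mapA]
  congr 2
  have h1 : ∀ A B : Matrix (Fin n) (Fin n) (MvPolynomial (Fin n × Fin n) K₀),
      (A * B).map (ev (K₀ := K₀) h) = A.map (ev (K₀ := K₀) h) * B.map (ev (K₀ := K₀) h) :=
    fun A B => Matrix.map_mul (f := (ev (K₀ := K₀) h).toRingHom)
  rw [h1, h1, cmap_map, cmap_map, gm_map]

theorem der_left {R : Type*} [CommRing R] [Algebra K₀ R] (D : Derivation K₀ R R)
    (A : Matrix (Fin n) (Fin n) K₀) (Y : Matrix (Fin n) (Fin n) R) (i j : Fin n) :
    D ((A.map (algebraMap K₀ R) * Y) i j) = (A.map (algebraMap K₀ R) * Y.map D) i j := by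
  rw [Matrix.mul_apply, Matrix.mul_apply, map_sum]
  apply Finset.sum_congr rfl
  intro k _
  rw [Derivation.leibniz, Matrix.map_apply, D.map_algebraMap, smul_zero, add_zero,
    smul_eq_mul, Matrix.map_apply]

theorem der_right {R : Type*} [CommRing R] [Algebra K₀ R] (D : Derivation K₀ R R)
    (A : Matrix (Fin n) (Fin n) K₀) (Y : Matrix (Fin n) (Fin n) R) (i j : Fin n) :
    D ((Y * A.map (algebraMap K₀ R)) i j) = (Y.map D * A.map (algebraMap K₀ R)) i j := by
  rw [Matrix.mul_apply, Matrix.mul_apply, map_sum]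
  apply Finset.sum_congr rfl
  intro k _
  rw [Derivation.leibniz, Matrix.map_apply, D.map_algebraMap, smul_zero, zero_add,
    smul_eq_mul, Matrix.map_apply, mul_comm]

theorem der_conj {R : Type*} [CommRing R] [Algebra K₀ R] (D : Derivation K₀ R R)
    (A B M : Matrix (Fin n) (Fin n) K₀) (hBA : B * A = 1) (Y : Matrix (Fin n) (Fin n) R)
    (hY : Y.map D = Y * M.map (algebraMap K₀ R)) (i j : Fin n) :
    D ((A.map (algebraMap K₀ R) * (Y * B.map (algebraMap K₀ R))) i j) =
      (A.map (algebraMap K₀ R) * (Y * B.map (algebraMap K₀ R)) *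
        (A * M * B).map (algebraMap K₀ R)) i j := by
  have h1 : (Y * B.map (algebraMap K₀ R)).map D = Y.map D * B.map (algebraMap K₀ R) := by
    ext i j
    rw [Matrix.map_apply, der_right]
  have h2 : (A * M * B).map (algebraMap K₀ R) = A.map (algebraMap K₀ R) *
      M.map (algebraMap K₀ R) * B.map (algebraMap K₀ R) := by
    rw [Matrix.map_mul, Matrix.map_mul]
  have h3 : B.map (algebraMap K₀ R) * A.map (algebraMap K₀ R) = 1 := by
    rw [← Matrix.map_mul, hBA, Matrix.map_one _ (map_zero _) (map_one _)]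
  rw [der_left, h1, hY, h2]
  refine congrFun (congrFun ?_ i) j
  calc A.map (algebraMap K₀ R) * (Y * M.map (algebraMap K₀ R) * B.map (algebraMap K₀ R))
      = A.map (algebraMap K₀ R) * Y * 1 * (M.map (algebraMap K₀ R) * B.map (algebraMap K₀ R)) := by
        simp only [Matrix.mul_assoc, Matrix.one_mul]
    _ = A.map (algebraMap K₀ R) * (Y * B.map (algebraMap K₀ R)) *
        (A.map (algebraMap K₀ R) * M.map (algebraMap K₀ R) * B.map (algebraMap K₀ R)) := by
        rw [← h3]
        simp only [Matrix.mul_assoc]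

theorem gm_der (M : Matrix (Fin n) (Fin n) K₀) :
    (gm (K₀ := K₀) (n := n)).map (ldv M) =
      gm * M.map (algebraMap K₀ (MvPolynomial (Fin n × Fin n) K₀)) := by
  ext1 i j
  rw [Matrix.map_apply]
  have h1 := ev_ldv_X (K₀ := K₀) (gm (K₀ := K₀) (n := n)) M (i, j)
  rw [ev_gm] at h1
  exact h1

theorem ldv_cj (g : Matrix.GeneralLinearGroup (Fin n) K₀) (M : Matrix (Fin n) (Fin n) K₀)
    (f : MvPolynomial (Fin n × Fin n) K₀) :
    ldv M (cj g f) = cj g (ldv ((g : Matrix (Fin n) (Fin n) K₀) * M *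
      ((g⁻¹ : Matrix.GeneralLinearGroup (Fin n) K₀) : Matrix (Fin n) (Fin n) K₀)) f) := by
  unfold cj
  apply der_ev
  intro i j
  apply der_conj (ldv M) _ _ M _ gm (gm_der M)
  rw [← Units.val_mul, inv_mul_cancel, Units.val_one]

/-- (e) the Lie algebra is stable under conjugation by the normaliser. -/
theorem zLie_conj (g : Matrix.GeneralLinearGroup (Fin n) K₀) (hg : ∀ x ∈ G, g * x * g⁻¹ ∈ G)
    (M : Matrix (Fin n) (Fin n) K₀) (hM : M ∈ zLie G) :
    (g : Matrix (Fin n) (Fin n) K₀) * M *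
      ((g⁻¹ : Matrix.GeneralLinearGroup (Fin n) K₀) : Matrix (Fin n) (Fin n) K₀) ∈ zLie G := by
  intro f hf
  have h1 : cj g f ∈ zI G := by
    intro x hx
    rw [ev_cj, map_id_alg, map_id_alg, ← Matrix.mul_assoc, ← Units.val_mul, ← Units.val_mul]
    exact hf _ (hg x hx)
  have h2 := hM _ h1
  rw [ldv_cj, ev_cj, map_id_alg, map_id_alg, one_mul, ← Units.val_mul, mul_inv_cancel,
    Units.val_one] at h2
  exact h2

end

end MT
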