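import Pool.Agent.Helper3.MT.ZAR

/-!
# MT, module ZLOG: logarithms of unipotent elements are in the Lie algebra
-/

set_option autoImplicit false
set_option maxHeartbeats 800000

open MvPolynomial

namespace MT

section

variable {K₀ : Type*} [Field K₀] {n : ℕ}

/-- logarithm of a unipotent matrix -/
noncomputable def lg (t : Matrix (Fin n) (Fin n) K₀) : Matrix (Fin n) (Fin n) K₀ :=
  ∑ k ∈ Finset.range n, ((-1) ^ (k + 1) / (k : K₀)) • (t - 1) ^ k

/-- binomial polynomials -/
noncomputable def bp (k : ℕ) : Polynomial K₀ :=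
  Polynomial.C ((k.factorial : K₀)⁻¹) * descPochhammer K₀ k

theorem bp_eval [CharZero K₀] (k m : ℕ) : (bp k : Polynomial K₀).eval (m : K₀) = (m.choose k : K₀) := by
  unfold bp
  rw [Polynomial.eval_mul, Polynomial.eval_C, descPochhammer_eval_eq_descFactorial,
    Nat.descFactorial_eq_factorial_mul_choose, Nat.cast_mul, inv_mul_cancel_left₀]
  exact_mod_cast k.factorial_ne_zero

theorem dp_der (k : ℕ) : (Polynomial.derivative (descPochhammer K₀ (k + 1))).eval 0 =
    (-1) ^ k * (k.factorial : K₀) := by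
  induction k with
  | zero => simp [descPochhammer_succ_right]
  | succ k ih =>
    rw [descPochhammer_succ_right, Polynomial.derivative_mul, Polynomial.eval_add,
      Polynomial.eval_mul, Polynomial.eval_mul, ih]
    have h1 : (descPochhammer K₀ (k + 1)).eval 0 = 0 := by
      have := descPochhammer_eval_eq_descFactorial K₀ 0 (k + 1)
      rw [Nat.cast_zero] at this
      rw [this, Nat.zero_descFactorial_succ, Nat.cast_zero]
    rw [h1, zero_mul, add_zero, Polynomial.eval_sub, Polynomial.eval_X, Polynomial.eval_natCast,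
      Nat.factorial_succ, pow_succ]
    push_cast
    ring

theorem bp_der [CharZero K₀] (k : ℕ) : (Polynomial.derivative (bp k : Polynomial K₀)).eval 0 =
    (-1) ^ (k + 1) / (k : K₀) := by
  unfold bp
  rw [Polynomial.derivative_C_mul, Polynomial.eval_mul, Polynomial.eval_C]
  cases k with
  | zero => simp
  | succ k =>
    rw [dp_der, Nat.factorial_succ]
    have h1 : (k.factorial : K₀) ≠ 0 := by exact_mod_cast k.factorial_ne_zero
    have h2 : ((k : K₀) + 1) ≠ 0 := by exact_mod_cast Nat.succ_ne_zero k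
    push_cast
    field_simp
    ring

/-- the one-parameter group `(1 + N)^x` -/
noncomputable def opg (N : Matrix (Fin n) (Fin n) K₀) : Matrix (Fin n) (Fin n) (Polynomial K₀) :=
  Matrix.of fun i j => ∑ k ∈ Finset.range n, bp k * Polynomial.C ((N ^ k) i j)

theorem opg_eval [CharZero K₀] (N : Matrix (Fin n) (Fin n) K₀) (hN : N ^ n = 0) (m : ℕ) :
    (opg N).map (Polynomial.aeval (m : K₀)) = (1 + N) ^ m := by
  have h1 : (1 + N) ^ m = ∑ k ∈ Finset.range n, (m.choose k : K₀) • N ^ k := by
    have h2 : (1 + N) ^ m = ∑ k ∈ Finset.range (m + 1), (m.choose k : K₀) • N ^ k := by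
      rw [add_comm, (Commute.one_right N).add_pow]
      apply Finset.sum_congr rfl
      intro k _
      rw [one_pow, mul_one, ← nsmul_eq_mul', Nat.cast_smul_eq_nsmul]
    have h3 : ∀ a : ℕ, ∑ k ∈ Finset.range (m + 1 + a), (m.choose k : K₀) • N ^ k =
        ∑ k ∈ Finset.range (m + 1), (m.choose k : K₀) • N ^ k := by
      intro a
      symm
      apply Finset.sum_subset (Finset.range_mono (Nat.le_add_right _ _))
      intro k _ hk
      rw [Finset.mem_range, not_lt] at hk
      rw [Nat.choose_eq_zero_of_lt (by omega), Nat.cast_zero, zero_smul]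
    have h4 : ∑ k ∈ Finset.range (m + 1 + n), (m.choose k : K₀) • N ^ k =
        ∑ k ∈ Finset.range n, (m.choose k : K₀) • N ^ k := by
      symm
      apply Finset.sum_subset (Finset.range_mono (Nat.le_add_left _ _))
      intro k _ hk
      rw [Finset.mem_range, not_lt] at hk
      rw [pow_eq_zero_of_le hk hN, smul_zero]
    rw [h2, ← h3 n, h4]
  rw [h1]
  ext i j
  rw [Matrix.map_apply, Matrix.sum_apply]
  show Polynomial.aeval (m : K₀) (∑ k ∈ Finset.range n, bp k * Polynomial.C ((N ^ k) i j)) = _
  rw [map_sum]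
  apply Finset.sum_congr rfl
  intro k _
  rw [map_mul, Polynomial.aeval_C, Polynomial.coe_aeval_eq_eval, bp_eval, Matrix.smul_apply,
    smul_eq_mul]
  rfl

theorem opg_der [CharZero K₀] (N : Matrix (Fin n) (Fin n) K₀) (i j : Fin n) :
    Polynomial.aeval (0 : K₀) (Polynomial.derivative (opg N i j)) =
      (∑ k ∈ Finset.range n, ((-1) ^ (k + 1) / (k : K₀)) • N ^ k) i j := by
  have h1 : opg N i j = ∑ k ∈ Finset.range n, bp k * Polynomial.C ((N ^ k) i j) := rfl
  rw [h1, Polynomial.derivative_sum, map_sum, Matrix.sum_apply]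
  apply Finset.sum_congr rfl
  intro k _
  rw [Polynomial.derivative_mul, Polynomial.derivative_C, mul_zero, add_zero, map_mul,
    Polynomial.aeval_C, Polynomial.coe_aeval_eq_eval, bp_der, Matrix.smul_apply, smul_eq_mul]
  rfl

/-- (c) logarithms of unipotent elements are in the Lie algebra. -/
theorem lg_mem [CharZero K₀] (G : Subgroup (Matrix.GeneralLinearGroup (Fin n) K₀))
    (t : Matrix.GeneralLinearGroup (Fin n) K₀) (ht : t ∈ G)
    (hN : ((t : Matrix (Fin n) (Fin n) K₀) - 1) ^ n = 0) :
    lg (t : Matrix (Fin n) (Fin n) K₀) ∈ zLie G := by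
  intro f hf
  have h0 : ∀ m : ℕ, (opg ((t : Matrix (Fin n) (Fin n) K₀) - 1)).map
      (Polynomial.aeval (m : K₀)) = ((t ^ m : Matrix.GeneralLinearGroup (Fin n) K₀) :
        Matrix (Fin n) (Fin n) K₀) := by
    intro m
    rw [opg_eval _ hN, Units.val_pow_eq_pow_val]
    congr 1
    abel
  have h1 : ev (opg ((t : Matrix (Fin n) (Fin n) K₀) - 1)) f = 0 := by
    apply Polynomial.eq_zero_of_infinite_isRoot
    apply Set.infinite_of_injective_forall_mem (f := fun m : ℕ => (m : K₀)) Nat.cast_injective
    intro m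
    show Polynomial.IsRoot _ _
    rw [Polynomial.IsRoot.def, ← Polynomial.coe_aeval_eq_eval, ev_mapA, h0]
    exact hf _ (G.pow_mem ht m)
  have h2 := der_ev_pt (K₀ := K₀) (Polynomial.derivative' (R := K₀)) (Polynomial.aeval (0 : K₀))
    (opg ((t : Matrix (Fin n) (Fin n) K₀) - 1)) 1 (lg (t : Matrix (Fin n) (Fin n) K₀)) (by
      intro i j
      have h3 := congrFun (congrFun (h0 0) i) j
      rw [Matrix.map_apply, Nat.cast_zero, pow_zero, Units.val_one] at h3
      exact h3) (by
      intro i j
      rw [one_mul, map_id_alg]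
      exact opg_der _ i j) f
  rw [h1, map_zero, map_zero] at h2
  exact h2.symm

end

end MT
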